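import Pool.Agent.W662.CB.Stmts

set_option autoImplicit false

open MeasureTheory Filter Topology Complex
open scoped InnerProductSpace ENNReal

namespace Pool.Agent.W509.CB

open Pool.Agent.W662.CB

theorem b6 (h1 : S_B1) (h2 : S_B2) : S_B6 := by
  intro H K _ _ _ _ _ _ M ξ U κ V J E T δ hmod hsep hbox Z hZ hcor hzero
  obtain ⟨hVJ, -⟩ := h1 H K M ξ U κ V J E T δ hmod hbox
  have hcor' : ∀ u : K, E 0 (Z (E 0 u)) = Z u := by
    intro u
    have := congrArg (fun X : K →L[ℂ] K => X u) hcor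
    simpa using this
  -- step 1
  have s1 : ∀ t : ℝ, Z (E (-I / 2 + t) (J ξ)) = 0 := by
    intro t
    have e1 : V t (E (-I / 2) (J ξ)) = E (-I / 2 + t) (J ξ) := by
      have a := congrArg (fun X : K →L[ℂ] K => X (J ξ)) (hbox.V_E t (-I / 2))
      simp only [ContinuousLinearMap.mul_apply] at a
      rw [a, hVJ t, hbox.E_add]
      rfl
    have a := congrArg (fun X : K →L[ℂ] K => X (E (-I / 2) (J ξ))) (hZ.1 t)
    simp only [ContinuousLinearMap.mul_apply] at a
    rw [← e1, a, hzero, map_zero]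
  -- step 2
  have s2 : ∀ z : ℂ, Z (E z (J ξ)) = 0 := by
    have hd : Differentiable ℂ fun z : ℂ => Z (E z (J ξ)) := by
      have h := hbox.E_diff
      fun_prop
    have hF : AnalyticOnNhd ℂ (fun z : ℂ => Z (E z (J ξ))) Set.univ := fun z _ =>
      hd.analyticAt z
    have h0 : AnalyticOnNhd ℂ (fun _ : ℂ => (0 : K)) Set.univ := fun z _ => analyticAt_const
    have hfr : ∃ᶠ z in 𝓝[≠] (-I / 2 : ℂ), Z (E z (J ξ)) = (0 : K) := by
      have ht : Tendsto (fun n : ℕ => (-I / 2 : ℂ) + ((1 / ((n : ℝ) + 1) : ℝ) : ℂ)) atTop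
          (𝓝[≠] (-I / 2 : ℂ)) := by
        refine tendsto_nhdsWithin_iff.mpr ⟨?_, ?_⟩
        · have h3 : Tendsto (fun n : ℕ => ((1 / ((n : ℝ) + 1) : ℝ) : ℂ)) atTop (𝓝 ((0 : ℝ) : ℂ)) :=
            (Complex.continuous_ofReal.tendsto 0).comp tendsto_one_div_add_atTop_nhds_zero_nat
          have h4 := (tendsto_const_nhds (x := (-I / 2 : ℂ)) (f := atTop (α := ℕ))).add h3
          simpa using h4
        · refine Eventually.of_forall fun n => ?_
          simp only [Set.mem_compl_iff, Set.mem_singleton_iff, add_eq_left]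
          have : (1 / ((n : ℝ) + 1) : ℝ) ≠ 0 := by positivity
          exact_mod_cast this
      exact ht.frequently (Frequently.of_forall fun n => s1 _)
    have := hF.eq_of_frequently_eq h0 hfr
    intro z
    exact congrFun this z
  -- step 3
  have s3 : ∀ (m n : ℤ) (v : H), ContinuousLinearMap.adjoint J
      (E ((-((n : ℝ) * T) : ℝ) : ℂ) (Z (E (((m : ℝ) * T : ℝ) : ℂ) (J v)))) = 0 := by
    intro m n v
    have hA := (h2 H K M U κ V J E T δ hbox Z hZ).2.2 ((-((n : ℝ) * T) : ℝ) : ℂ)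
      (((m : ℝ) * T : ℝ) : ℂ)
    have hM := (h2 H K M U κ V J E T δ hbox _ hA).1
    have h0 : sl J (E ((-((n : ℝ) * T) : ℝ) : ℂ) * Z * E (((m : ℝ) * T : ℝ) : ℂ)) ξ = 0 := by
      simp only [sl, ContinuousLinearMap.comp_apply, ContinuousLinearMap.mul_apply]
      rw [s2, map_zero, map_zero]
    have h5 := hsep _ hM h0
    have h6 := congrArg (fun X : H →L[ℂ] H => X v) h5
    simpa [sl] using h6
  -- step 4
  have s4 : ∀ (m : ℤ) (v : H), Z (E (((m : ℝ) * T : ℝ) : ℂ) (J v)) = 0 := by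
    intro m v
    have hs := hbox.compl (Z (E (((m : ℝ) * T : ℝ) : ℂ) (J v)))
    have hz : (fun n : ℤ => E (((n : ℝ) * T : ℝ) : ℂ) (J (ContinuousLinearMap.adjoint J
        (E ((-((n : ℝ) * T) : ℝ) : ℂ) (Z (E (((m : ℝ) * T : ℝ) : ℂ) (J v))))))) =
        fun _ => (0 : K) := by
      funext n
      rw [s3, map_zero, map_zero]
    rw [hz] at hs
    have h7 := hs.unique hasSum_zero
    have h8 : E 0 (E (((m : ℝ) * T : ℝ) : ℂ) (J v)) = E (((m : ℝ) * T : ℝ) : ℂ) (J v) := by
      have := congrArg (fun X : K →L[ℂ] K => X (J v)) (hbox.E_add 0 (((m : ℝ) * T : ℝ) : ℂ))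
      simp only [zero_add, ContinuousLinearMap.mul_apply] at this
      exact this.symm
    rw [← hcor', h8, h7]
  -- step 5
  ext1 u
  have hs := (hbox.compl u).mapL Z
  have hz : (fun n : ℤ => Z (E (((n : ℝ) * T : ℝ) : ℂ) (J (ContinuousLinearMap.adjoint J
      (E ((-((n : ℝ) * T) : ℝ) : ℂ) u))))) = fun _ => (0 : K) := by
    funext n
    exact s4 n _
  rw [hz] at hs
  have h9 := hs.unique hasSum_zero
  rw [← hcor', h9, map_zero]
  rfl

end Pool.Agent.W509.CB
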