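import Pool.Agent.W662.CB.Stmts

set_option autoImplicit false

open MeasureTheory Filter Topology Complex
open scoped InnerProductSpace ENNReal

namespace Pool.Agent.W509.CB

open Pool.Agent.W662.CB

noncomputable section

variable {H : Type} [NormedAddCommGroup H] [InnerProductSpace ℂ H] [CompleteSpace H]

omit [NormedAddCommGroup H] [InnerProductSpace ℂ H] [CompleteSpace H] in
theorem shift_ae {p q : ℝ → H} (t : ℝ) (h : p =ᵐ[volume] q) :
    (fun s => p (s - t)) =ᵐ[volume] fun s => q (s - t) :=
  (measurePreserving_sub_right (volume : Measure ℝ) t).quasiMeasurePreserving.ae_eq_comp h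

theorem shift_unique {t : ℝ} {S S' : LR H →L[ℂ] LR H} (h : IsShift t S) (h' : IsShift t S') :
    S = S' := by
  ext1 f
  apply Lp.ext
  exact (h f).trans (h' f).symm

theorem shift_mul {s t : ℝ} {S T : LR H →L[ℂ] LR H} (h : IsShift s S) (h' : IsShift t T) :
    IsShift (s + t) (S * T) := by
  intro f
  have h1 := h (T f)
  have h2 := shift_ae s (h' f)
  refine (h1.trans h2).trans ?_
  refine Eventually.of_forall fun x => ?_
  simp only []
  congr 1
  ring

theorem shift_one : IsShift 0 (1 : LR H →L[ℂ] LR H) := by
  intro f
  refine Eventually.of_forall fun x => ?_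
  simp

/-- translation as a linear isometry -/
def Rt (H : Type) [NormedAddCommGroup H] [InnerProductSpace ℂ H] [CompleteSpace H] (t : ℝ) :
    LR H →ₗᵢ[ℂ] LR H :=
  Lp.compMeasurePreservingₗᵢ ℂ (fun s : ℝ => s - t) (measurePreserving_sub_right volume t)

theorem Rt_shift (t : ℝ) : IsShift t ((Rt H t).toContinuousLinearMap) := by
  intro f
  exact Lp.coeFn_compMeasurePreserving f (measurePreserving_sub_right volume t)

theorem e3 : S_E3 := by
  intro H _ _ _
  refine ⟨fun t => (Rt H t).toContinuousLinearMap, fun t => Rt_shift t, ?_, ?_, ?_, ?_⟩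
  · exact shift_unique (Rt_shift 0) shift_one
  · intro s t
    exact shift_unique (Rt_shift (s + t)) (shift_mul (Rt_shift s) (Rt_shift t))
  · intro t
    have hone : (Rt H t).toContinuousLinearMap * (Rt H (-t)).toContinuousLinearMap = 1 := by
      have h1 := shift_mul (Rt_shift (H := H) t) (Rt_shift (-t))
      rw [add_neg_cancel] at h1
      exact shift_unique h1 shift_one
    ext1 v
    apply ext_inner_right ℂ
    intro w
    rw [ContinuousLinearMap.star_eq_adjoint, ContinuousLinearMap.adjoint_inner_left]
    have h2 : v = (Rt H t) ((Rt H (-t)) v) := by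
      have := congrArg (fun S : LR H →L[ℂ] LR H => S v) hone
      simpa using this.symm
    conv_lhs => rw [h2]
    exact (Rt H t).inner_map_map _ _
  · intro t y S hS
    ext1 f
    apply Lp.ext
    have h1 : ((Rt H t).toContinuousLinearMap (S f) : ℝ → H) =ᵐ[volume]
        fun s => y (f (s - t)) := (Rt_shift t (S f)).trans (shift_ae t (hS f))
    have h2 : (S ((Rt H t).toContinuousLinearMap f) : ℝ → H) =ᵐ[volume]
        fun s => y (f (s - t)) := by
      refine (hS _).trans ?_
      filter_upwards [Rt_shift t f] with s hs
      rw [hs]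
    exact h1.trans h2.symm

end

end Pool.Agent.W509.CB
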