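import Pool.Agent.W662.CB.Stmts
import Pool.Agent.W509.CB.E3

set_option autoImplicit false

open MeasureTheory Filter Topology Complex
open scoped InnerProductSpace ENNReal SchwartzMap FourierTransform

namespace Pool.Agent.W509.CB

open Pool.Agent.W662.CB

noncomputable section

variable {H : Type} [NormedAddCommGroup H] [InnerProductSpace ℂ H] [CompleteSpace H]

theorem four_post (y : H →L[ℂ] H) (f : 𝓢(ℝ, H)) (w : ℝ) :
    (𝓕 (f.postcompCLM y)) w = y ((𝓕 f) w) := by
  rw [SchwartzMap.fourier_coe, SchwartzMap.fourier_coe, Real.fourier_eq, Real.fourier_eq]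
  rw [← ContinuousLinearMap.integral_comp_comm y
    ((Real.fourierIntegral_convergent_iff w).2 f.integrable)]
  apply integral_congr_ae
  refine Eventually.of_forall fun v => ?_
  simp only [SchwartzMap.postcompCLM_apply]
  simp only [Circle.smul_def, map_smul]

omit [CompleteSpace H] in
theorem four_shift (t : ℝ) (f : 𝓢(ℝ, H)) (w : ℝ) :
    (𝓕 (f.compSubConstCLM ℂ t)) w =
      Complex.exp (2 * Real.pi * I * (-t : ℝ) * w) • ((𝓕 f) w) := by
  rw [SchwartzMap.fourier_coe, SchwartzMap.fourier_coe, Real.fourier_real_eq_integral_exp_smul,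
    Real.fourier_real_eq_integral_exp_smul, ← integral_smul]
  rw [← integral_sub_right_eq_self (μ := volume) (fun v : ℝ =>
    Complex.exp (2 * Real.pi * I * (-t : ℝ) * w) •
      Complex.exp (((-2 * Real.pi * v * w : ℝ) : ℂ) * I) • f v) t]
  apply integral_congr_ae
  refine Eventually.of_forall fun v => ?_
  simp only [SchwartzMap.compSubConstCLM_apply]
  rw [smul_smul, ← Complex.exp_add]
  congr 2
  push_cast
  ring

/-- a Schwartz function as an element of the Hilbert space -/
def tl (g : 𝓢(ℝ, H)) : LR H := g.toLp 2 (volume : Measure ℝ)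

theorem tl_ae (g : 𝓢(ℝ, H)) : (tl g : ℝ → H) =ᵐ[volume] g := g.coeFn_toLp 2 (volume : Measure ℝ)

theorem mul_sch (t : ℝ) (S' : LR H →L[ℂ] LR H)
    (hS' : IsMulOp (fun w : ℝ => Complex.exp (2 * Real.pi * I * (-t : ℝ) * w)) S')
    (G1 G2 : 𝓢(ℝ, H)) (hG : ∀ w : ℝ, G1 w =
      Complex.exp (2 * Real.pi * I * (-t : ℝ) * w) • G2 w) : tl G1 = S' (tl G2) := by
  apply Lp.ext
  refine EventuallyEq.trans ?_ (hS' _).symm
  filter_upwards [tl_ae G1, tl_ae G2] with w k1 k3
  rw [k1, k3]
  exact hG w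

theorem e9 : S_E9 := by
  intro H _ _ _
  refine ⟨Lp.fourierTransformₗᵢ ℝ H, ?_, ?_⟩
  · intro y S hS f
    have hSf : ∀ g : 𝓢(ℝ, H), S (g.toLp 2) = (g.postcompCLM y).toLp 2 := by
      intro g
      apply Lp.ext
      refine (hS _).trans ?_
      filter_upwards [g.coeFn_toLp 2 volume, (g.postcompCLM y).coeFn_toLp 2 volume] with s h1 h2
      rw [h1, h2, SchwartzMap.postcompCLM_apply]
    refine DenseRange.induction_on (p := fun f => (Lp.fourierTransformₗᵢ ℝ H) (S f) =
      S ((Lp.fourierTransformₗᵢ ℝ H) f))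
      (SchwartzMap.denseRange_toLpCLM (F := H) (μ := (volume : Measure ℝ)) (p := 2)
        ENNReal.ofNat_ne_top) f ?_ ?_
    · exact isClosed_eq ((Lp.fourierTransformₗᵢ ℝ H).continuous.comp S.continuous)
        (S.continuous.comp (Lp.fourierTransformₗᵢ ℝ H).continuous)
    · intro g
      rw [SchwartzMap.toLpCLM_apply]
      rw [hSf]
      have e1 : (Lp.fourierTransformₗᵢ ℝ H) ((g.postcompCLM y).toLp 2) =
        (𝓕 (g.postcompCLM y)).toLp 2 := SchwartzMap.toLp_fourier_eq _
      have e2 : (Lp.fourierTransformₗᵢ ℝ H) (g.toLp 2) = (𝓕 g).toLp 2 :=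
        SchwartzMap.toLp_fourier_eq _
      rw [e1, e2, hSf]
      congr 1
      ext w
      rw [four_post, SchwartzMap.postcompCLM_apply]
  · intro t S S' hS hS' f
    have hSf : ∀ g : 𝓢(ℝ, H), S (g.toLp 2) = (g.compSubConstCLM ℂ t).toLp 2 := by
      intro g
      apply Lp.ext
      refine (hS _).trans ?_
      refine (shift_ae t (g.coeFn_toLp 2 volume)).trans ?_
      filter_upwards [(g.compSubConstCLM ℂ t).coeFn_toLp 2 volume] with s h2
      rw [h2, SchwartzMap.compSubConstCLM_apply]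
    refine DenseRange.induction_on (p := fun f => (Lp.fourierTransformₗᵢ ℝ H) (S f) =
      S' ((Lp.fourierTransformₗᵢ ℝ H) f))
      (SchwartzMap.denseRange_toLpCLM (F := H) (μ := (volume : Measure ℝ)) (p := 2)
        ENNReal.ofNat_ne_top) f ?_ ?_
    · exact isClosed_eq ((Lp.fourierTransformₗᵢ ℝ H).continuous.comp S.continuous)
        (S'.continuous.comp (Lp.fourierTransformₗᵢ ℝ H).continuous)
    · intro g
      rw [SchwartzMap.toLpCLM_apply]
      rw [hSf]
      have e1 : (Lp.fourierTransformₗᵢ ℝ H) ((g.compSubConstCLM ℂ t).toLp 2) =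
        (𝓕 (g.compSubConstCLM ℂ t)).toLp 2 := SchwartzMap.toLp_fourier_eq _
      have e2 : (Lp.fourierTransformₗᵢ ℝ H) (g.toLp 2) = (𝓕 g).toLp 2 :=
        SchwartzMap.toLp_fourier_eq _
      rw [e1, e2]
      exact mul_sch t S' hS' _ _ (four_shift t g)

end

end Pool.Agent.W509.CB
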